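import Pool.Agent.H.MP_d900b7.A

namespace Pool.Agent.Results.MP_d900b7_an.Main

theorem result (K : Type) [TopologicalSpace K] [CompactSpace K] [T2Space K]
    (h : Infinite K ∨ ¬ TopologicalSpace.MetrizableSpace K) (C : ℝ) :
    ∃ (Y : Type) (_ : NormedAddCommGroup Y) (_ : NormedSpace ℝ Y)
      (Z : Type) (_ : NormedAddCommGroup Z) (_ : NormedSpace ℝ Z),
      Nonempty (C(K, ℝ) ≃L[ℝ] Y) ∧ Nonempty (C(K, ℝ) ≃L[ℝ] Z) ∧
      ∀ T : Y ≃L[ℝ] Z, C < ‖(T : Y →L[ℝ] Z)‖ * ‖(T.symm : Z →L[ℝ] Y)‖ := by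
  have : Infinite K := h.elim id fun k => not_finite_iff_infinite.1 fun _ => k inferInstance
  obtain ⟨Y, _, _, h1, h2⟩ := Pool.Agent.H.MP_d900b7.main (K := K) C
  exact ⟨Y, _, _, C(K, ℝ), _, _, h1, ⟨.refl _ _⟩, h2⟩

end Pool.Agent.Results.MP_d900b7_an.Main
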